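import Mathlib
import Pool.Agent.J4.H78.FP.Poly

set_option autoImplicit false

/-!
# Non-special systems whose multiplicities are tied to the values `F(t)` of polynomials at integers `t`
# with restricted or independent random digits

Let `t` have `k` digits in base `b`, all digits being independent random variables with ARBITRARY laws,
such that no digit takes a value with a probability above `1 - η`; for example, `t` is uniformly
distributed in the set of the integers whose `i`-th digits belong to arbitrary prescribed sets of at least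
two digits (this set may have only `2 ^ k` of the `b ^ k` integers with `k` digits). Let `F` be a
polynomial of degree `d ≥ 1` with rational leading coefficient, whose values `m(t) = F(t)` at these
integers are nonnegative integers, for instance `F = c X + h`.

(1) With probability at least `1 / 10000 ^ 23` (`k` large): for EVERY number `n ≥ 10` of general points and EVERY degree the system
with `n` points of multiplicity `m = m(t)` is non-special.

(2) For every single `n ≥ 10`, outside of an event of probability at most `bad n + δ` (`k` large):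
ALL systems with multiplicities in `{m, m + 1}` (`m ≥ 1` any) whose sum of
multiplicities is `m(t)` are non-special in every degree;
`bad n < 1`, `bad n = 0` for the squares, `bad 10 < 0.163`.

How large `k` has to be depends on `b`, `η`, the degree and the leading coefficient of `F`, `n` and `δ`
only, but not on the laws of the digits and not on the other coefficients of `F`.

Proof. The plane systems are those of helper141 (`Pool.Agent.N141.SG`): a multiplicity `m` is good for all
numbers of points if the numbers `m √r` lie in certain arcs modulo one for 20 radicands `r`. For `d = 1`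
the mean of `e(θ m(t))` is a product over the digits, and `‖b! θ b ^ i‖ ≥ 1 / (2 b)` for infinitely many
`i` if `θ` is irrational. For `d ≥ 2` Weyl's inequality for polynomials at integers with independent
digits (`Pool.Agent.J4.H93.PD`) is used with boundedly many free digits.
-/

namespace Pool.Agent.Results.MP_d3128a_ag.DigitPolynomials

open MvPolynomial Filter

/-- Forms of degree `d` vanishing to order at least `w i` at the points `(P i 0 : P i 1 : 1)`. -/
noncomputable def forms {n : ℕ} (P : Fin n → Fin 2 → ℂ) (d : ℕ) (w : Fin n → ℕ) :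
    Submodule ℂ (MvPolynomial (Fin 3) ℂ) :=
  homogeneousSubmodule (Fin 3) ℂ d ⊓
    Submodule.restrictScalars ℂ
      (⨅ i : Fin n, (Ideal.span {X 0 - C (P i 0) * X 2, X 1 - C (P i 1) * X 2} :
        Ideal (MvPolynomial (Fin 3) ℂ)) ^ (w i))

/-- For general points (one nonempty open set for all degrees) the systems of curves with the
multiplicities `w` are non-special in every degree. -/
def NonSpecial {n : ℕ} (w : Fin n → ℕ) : Prop :=
  ∃ F : MvPolynomial (Fin n × Fin 2) ℂ, F ≠ 0 ∧ ∀ P : Fin n → Fin 2 → ℂ,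
    MvPolynomial.eval (fun ij : Fin n × Fin 2 => P ij.1 ij.2) F ≠ 0 →
    ∀ d : ℕ, (Module.finrank ℂ ↥(forms P d w) : ℤ) - 1 =
      max (((d + 2).choose 2 : ℤ) - 1 - ∑ i, ((w i + 1).choose 2 : ℤ)) (-1)

/-- The multiplicity `m ≥ 1` is good for every number `n ≥ 10` of points and every degree. -/
def Holds (m : ℕ) : Prop := 1 ≤ m ∧ ∀ n : ℕ, 10 ≤ n → NonSpecial (fun _ : Fin n => m)

/-- All vectors of `n` positive multiplicities with sum `W` which take at most two consecutive values
`m`, `m + 1` are good in every degree. -/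
def Good (n W : ℕ) : Prop :=
  ∀ m : ℕ, 0 < m → ∀ w : Fin n → ℕ, (∀ i, w i = m ∨ w i = m + 1) → ∑ i, w i = W → NonSpecial w

open Classical in
/-- The bound for the proportion of the bad sums for `n` points. -/
noncomputable def bad (n : ℕ) : ℝ :=
  if IsSquare n then 0
  else (min (√(n : ℝ) - 3) (2 / 3 + 9 / (4 * √(n : ℝ))) +
    min (√(n : ℝ) - 3) (2 / 3 + 1 / (4 * √(n : ℝ)))) / 2

/-- `w i a` is the probability that the `i`-th digit in base `b` is `a`; no digit takes a value with a
probability above `1 - η`. -/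
def Laws (b : ℕ) (η : ℝ) (w : ℕ → ℕ → ℝ) : Prop :=
  ∀ i, (∀ a, 0 ≤ w i a ∧ w i a ≤ 1 - η) ∧ ∑ a ∈ Finset.range b, w i a = 1

open Classical in
/-- The probability of the event `E` for an integer `n` with `k` digits in base `b`, if the digits are
independent and `w i` is the law of the `i`-th digit `n / b ^ i % b`. -/
noncomputable def prob (b k : ℕ) (w : ℕ → ℕ → ℝ) (E : ℕ → Prop) : ℝ :=
  ∑ n ∈ (Finset.range (b ^ k)).filter E, ∏ i ∈ Finset.range k, w i (n / b ^ i % b)

/-- `m n` is the value at `n` of the real polynomial `F` of degree `d` and leading coefficient `α`, for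
all integers `n` with at most `k` digits in base `b`. -/
def Values (b k d : ℕ) (α : ℚ) (F : Polynomial ℝ) (m : ℕ → ℕ) : Prop :=
  F.natDegree = d ∧ F.leadingCoeff = α ∧ ∀ n < b ^ k, (m n : ℝ) = F.eval (n : ℝ)

theorem nonSpecial_of {n : ℕ} {w : Fin n → ℕ} (h : Pool.Agent.N141.SG.ExN w) : NonSpecial w := by
  obtain ⟨F, hF, hF'⟩ := h
  refine ⟨F.map (algebraMap ℚ ℂ), Pool.Agent.H932R3.map_ne_zero_of hF, fun P hP d => ?_⟩
  rw [MvPolynomial.eval_map] at hP
  have h1 := hF' P hP d
  unfold Pool.Agent.H932R3.ExpDim at h1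
  unfold forms
  rw [h1]
  have e : ∑ i, ((w i + 1).choose 2 : ℤ) = ((∑ i, (w i + 1).choose 2 : ℕ) : ℤ) := by
    push_cast
    rfl
  rw [e]
  omega

theorem bad_ten : bad 10 < 0.163 := by
  have h1 : √((10 : ℕ) : ℝ) < 3.163 := by
    rw [Real.sqrt_lt' (by norm_num)]
    norm_num
  have h0 : ¬ IsSquare 10 := by
    rintro ⟨k, hk⟩
    have : k ≤ 3 := by nlinarith
    interval_cases k <;> omega
  unfold bad
  rw [if_neg h0]
  have h2 := min_le_left (√((10 : ℕ) : ℝ) - 3) (2 / 3 + 9 / (4 * √((10 : ℕ) : ℝ)))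
  have h3 := min_le_left (√((10 : ℕ) : ℝ) - 3) (2 / 3 + 1 / (4 * √((10 : ℕ) : ℝ)))
  linarith

theorem holds_of {m : ℕ} (hm : 1 ≤ m) (h : Pool.Agent.N141.SG.Tgt (m : ℕ)) : Holds m :=
  ⟨hm, fun _ hn => nonSpecial_of (w := fun _ => m) (Pool.Agent.N141.SG.every h hm hn)⟩

theorem good_of {n W : ℕ} (h : Pool.Agent.N141.SG.GoodN n W) : Good n W :=
  fun m hm w hw hsum => nonSpecial_of (h m hm w hw hsum)

theorem dig_of {b : ℕ} {η : ℝ} {w : ℕ → ℕ → ℝ} (hw : Laws b η w) : Pool.Agent.TH872.Sq.Dig b η w :=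
  ⟨fun i a => ((hw i).1 a).1, fun i => (hw i).2, fun i a => ((hw i).1 a).2⟩

theorem prob_eq (b k : ℕ) (w : ℕ → ℕ → ℝ) (E : ℕ → Prop) :
    prob b k w E = Pool.Agent.J4.H78.FP.pr (Finset.range (b ^ k)) (Pool.Agent.TH872.Sq.P b w 0 k) E := by
  unfold prob Pool.Agent.J4.H78.FP.pr Pool.Agent.TH872.Sq.P
  simp only [Nat.zero_add]

/-- **Main result.** -/
theorem result :
    (∀ (b : ℕ) (η : ℝ) (d : ℕ) (α : ℚ), 2 ≤ b → 0 < η → 1 ≤ d → α ≠ 0 →
      (∃ k₀ : ℕ, ∀ k : ℕ, k₀ ≤ k → ∀ w, Laws b η w → ∀ (F : Polynomial ℝ) (m : ℕ → ℕ), Values b k d α F m →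
        1 / 10000 ^ 23 ≤ prob b k w (fun t => Holds (m t))) ∧
      ∀ n : ℕ, 10 ≤ n → ∀ δ : ℝ, 0 < δ →
        ∃ k₀ : ℕ, ∀ k : ℕ, k₀ ≤ k → ∀ w, Laws b η w → ∀ (F : Polynomial ℝ) (m : ℕ → ℕ), Values b k d α F m →
          prob b k w (fun t => ¬ Good n (m t)) ≤ bad n + δ) ∧
    (∀ n : ℕ, 10 ≤ n → bad n < 1) ∧ bad 10 < 0.163 := by
  refine ⟨fun b η d α hb hη hd hα => ?_, fun n hn => Pool.Agent.N141.SG.badN_lt hn, bad_ten⟩
  obtain ⟨h1, h2, _⟩ := Pool.Agent.J4.H78.FP.digitsP b hb η hη d hd α hα
  constructor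
  · obtain ⟨k₀, hk₀⟩ := h1
    refine ⟨k₀, fun k hk w hw F m hF => ?_⟩
    have h := hk₀ k hk (w, F, m) ⟨dig_of hw, hF.1, hF.2.1, hF.2.2⟩
    rw [prob_eq]
    refine h.trans (Pool.Agent.J4.H78.FP.pr_mono (fun n _ => Pool.Agent.TH872.Sq.P_nonneg (dig_of hw) 0 k n) ?_)
    intro n _ hn
    exact holds_of hn.1 hn.2
  · intro r hr δ hδ
    obtain ⟨k₀, hk₀⟩ := h2 r hr δ hδ
    refine ⟨k₀, fun k hk w hw F m hF => ?_⟩
    have h := hk₀ k hk (w, F, m) ⟨dig_of hw, hF.1, hF.2.1, hF.2.2⟩
    rw [prob_eq]
    refine le_trans (Pool.Agent.J4.H78.FP.pr_mono (fun n _ => Pool.Agent.TH872.Sq.P_nonneg (dig_of hw) 0 k n) ?_) h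
    intro n _ hn h0
    exact hn (good_of h0)

end Pool.Agent.Results.MP_d3128a_ag.DigitPolynomials
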