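import Mathlib
import Pool.Agent.J4.H25.Gl.Cls

set_option autoImplicit false

/-!
# Gluing non-special systems: groups of points instead of points

General points of the complex projective plane. The size of a vector `v` of multiplicities is a
number `c` with `c (c - 1) / 2 ≤ ∑ v i (v i + 1) / 2 ≤ c (c + 1) / 2`; for a single point it is the
multiplicity.

Let the points be divided into groups of the sizes `c k`, which are non-special in the two degrees
`c k - 1` and `c k - 2` (or which belong to the explicit class `Glued`). The system of the curves of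
degree `d` is non-special if
* all systems of degree `d` with one point of multiplicity `c k` or `c k - 1` instead of the `k`-th
  group are non-special, or
* at most nine sizes are larger than two, and `d` is at least the sum of the three largest sizes. So
  question Q1 has a positive answer if `m₁ ≥ m₂ ≥ m₃` are any three multiplicities and the other
  points are divided into six groups of sizes at most `m₃` and any number of groups of sizes at most
  two; or
* all sizes are equal to `b + 1 ≥ 2` and the number of the groups is `4 ^ (j + 1)`, `9 * 4 ^ j`,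
  `13 * 4 ^ j`, a multiple `≥ 144` of four, or `≥ N0`. Here `d` is arbitrary. For instance `4`, `9`,
  `13`, `16` copies of a vector which is non-special in every degree are non-special in every degree.

`Glued N0` is the least class of multisets which contains the single multiplicities, all
`k • {m}` with `k ≥ 37` or `k = 21`, those with few different values or a large sum (results of
other seats), and is closed under adding simple points and under the third operation; its members
are non-special in every degree.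
-/

namespace Pool.Agent.Results.MP_d3128a_ag.GluingGroups

open MvPolynomial Pool.Agent.J4.H25.Gl

/-- Forms of degree `d` vanishing to order at least `w i` at the points `(P i 0 : P i 1 : 1)`. -/
noncomputable def forms {ι : Type} (P : ι → Fin 2 → ℂ) (d : ℕ) (w : ι → ℕ) :
    Submodule ℂ (MvPolynomial (Fin 3) ℂ) :=
  homogeneousSubmodule (Fin 3) ℂ d ⊓
    Submodule.restrictScalars ℂ
      (⨅ i : ι, (Ideal.span {X 0 - C (P i 0) * X 2, X 1 - C (P i 1) * X 2} :
        Ideal (MvPolynomial (Fin 3) ℂ)) ^ (w i))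

/-- For general points the system of degree `d` with the multiplicities `w` is non-special. -/
def NonSpecial {ι : Type} [Fintype ι] (d : ℕ) (w : ι → ℕ) : Prop :=
  ∃ F : MvPolynomial (ι × Fin 2) ℂ, F ≠ 0 ∧ ∀ P : ι → Fin 2 → ℂ,
    MvPolynomial.eval (fun q : ι × Fin 2 => P q.1 q.2) F ≠ 0 →
      (Module.finrank ℂ ↥(forms P d w) : ℤ) - 1 =
        max (((d + 2).choose 2 : ℤ) - 1 - ∑ i, ((w i + 1).choose 2 : ℤ)) (-1)

/-- The number of conditions. -/
def cond {ι : Type} [Fintype ι] (w : ι → ℕ) : ℕ := ∑ i, (w i + 1).choose 2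

/-- The numbers of groups of equal sizes. -/
def Number (N0 r : ℕ) : Prop :=
  N0 ≤ r ∨ (144 ≤ r ∧ 4 ∣ r) ∨ ∃ j, r = 4 ^ (j + 1) ∨ r = 9 * 4 ^ j ∨ r = 13 * 4 ^ j

/-- An explicit class of multisets of multiplicities which are non-special in every degree. -/
inductive Glued (N0 : ℕ) : Multiset ℕ → Prop
  | point (b : ℕ) : Glued N0 {b}
  | const {k m : ℕ} (hk : 37 ≤ k ∨ k = 21) (hm : 1 ≤ m) : Glued N0 (k • {m})
  | few {M : Multiset ℕ} {μ r : ℕ} (h0 : M ≠ 0) (h1 : ∀ a ∈ M, 1 ≤ a ∧ a ≤ μ)
      (hr : M.toFinset.card ≤ r) (h : 40000 * r * μ ^ 2 ≤ (M.map fun a => a ^ 2).sum) : Glued N0 M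
  | large {M : Multiset ℕ} {μ : ℕ} (h1 : ∀ a ∈ M, a ≤ μ)
      (h : 25000 * (μ + 1) ^ 2 ≤ M.sum ∨ 2 ≤ μ ∧ 150 * μ ^ 3 ≤ M.sum) : Glued N0 M
  | simple {M : Multiset ℕ} (h : Glued N0 M) : Glued N0 (M + {1})
  | glue {r b : ℕ} (v : Fin r → Multiset ℕ) (hr : Number N0 r) (hb : 1 ≤ b)
      (h : ∀ i, Glued N0 (v i))
      (h1 : ∀ i, (b + 1).choose 2 ≤ ((v i).map fun a => (a + 1).choose 2).sum)
      (h2 : ∀ i, ((v i).map fun a => (a + 1).choose 2).sum ≤ (b + 2).choose 2) :
      Glued N0 (∑ i, v i)

theorem conv {ι : Type} [Fintype ι] (w : ι → ℕ) (d n : ℕ) :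
    (n : ℤ) - 1 = max (((d + 2).choose 2 : ℤ) - 1 - ∑ i, ((w i + 1).choose 2 : ℤ)) (-1) ↔
      n = (d + 2).choose 2 - ∑ i, (w i + 1).choose 2 := by
  have h : ∑ i, ((w i + 1).choose 2 : ℤ) = ((∑ i, (w i + 1).choose 2 : ℕ) : ℤ) := by
    push_cast
    rfl
  rw [h]
  omega

theorem nonSpecial_iff {ι : Type} [Fintype ι] {d : ℕ} {w : ι → ℕ} : NonSpecial d w ↔ NS d w := by
  unfold NonSpecial NS
  simp only [conv]
  rfl

open Pool.Agent.TH641.UM in
theorem sum_map_fam (f : ℕ → ℕ) (M : Multiset ℕ) :
    ∑ j : Fin M.toList.length, f (M.toList.get j) = (M.map f).sum := by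
  have h : ∀ s : Finset (Fin M.toList.length),
      ((∑ i ∈ s, ({M.toList.get i} : Multiset ℕ)).map f).sum = ∑ i ∈ s, f (M.toList.get i) := by
    classical
    intro s
    induction s using Finset.induction_on with
    | empty => simp
    | insert a s ha ih =>
      rw [Finset.sum_insert ha, Finset.sum_insert ha, Multiset.map_add, Multiset.sum_add, ih]
      simp
  rw [← h Finset.univ]
  congr 2
  exact exists_fam M

open Pool.Agent.TH641.UM Pool.Agent.TH2.NU in
theorem Glued.rg {N0 : ℕ} {M : Multiset ℕ} (h : Glued N0 M) : Rg N0 M := by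
  induction h with
  | point b => exact Rg.point b
  | @const k m hk hm =>
    have h1 := Rg.base (N0 := N0) (fun _ : Fin k => m) (Or.inl ⟨hk, m, hm, fun _ => rfl⟩)
    simpa using h1
  | @few M μ r h0 h1 hr h =>
    have h2 := Rg.base (N0 := N0) (fun i : Fin M.toList.length => M.toList.get i)
      (Or.inr (Or.inr (Or.inl ⟨?_, ?_, μ, r, ?_, ?_, ?_⟩)))
    · have h3 : ∑ i : Fin M.toList.length, ({M.toList.get i} : Multiset ℕ) = M := ms_toList M
      rw [h3] at h2
      exact h2
    · rw [Multiset.length_toList]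
      exact Nat.one_le_iff_ne_zero.2 fun h => h0 (Multiset.card_eq_zero.1 h)
    · exact fun i => (h1 _ (Multiset.mem_toList.1 (List.get_mem _ _))).1
    · exact fun i => (h1 _ (Multiset.mem_toList.1 (List.get_mem _ _))).2
    · refine le_trans (Finset.card_le_card ?_) hr
      intro a ha
      obtain ⟨i, -, rfl⟩ := Finset.mem_image.1 ha
      exact Multiset.mem_toFinset.2 (Multiset.mem_toList.1 (List.get_mem _ _))
    · exact h.trans (le_of_eq (sum_map_fam (fun a => a ^ 2) M).symm)
  | @large M μ h1 h =>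
    have h2 := Rg.base (N0 := N0) (fun i : Fin M.toList.length => M.toList.get i)
      (Or.inr (Or.inr (Or.inr ⟨μ, ?_, ?_⟩)))
    · have h3 : ∑ i : Fin M.toList.length, ({M.toList.get i} : Multiset ℕ) = M := ms_toList M
      rw [h3] at h2
      exact h2
    · exact fun i => h1 _ (Multiset.mem_toList.1 (List.get_mem _ _))
    · rw [Pool.Agent.TH745.MN.sum_fam]
      exact h
  | simple h ih => exact Rg.simple ih
  | glue v hr hb h h1 h2 ih => exact Rg.glue v hr hb ih h1 h2

/-- The condition on the degree `d` and the sizes `c k` of the groups. -/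
def Parents (N0 d : ℕ) {r : ℕ} (c : Fin r → ℕ) : Prop :=
  (∀ u : Fin r → ℕ, (∀ k, u k = c k ∨ u k + 1 = c k) → NonSpecial d u) ∨
  ((Finset.univ.filter fun k => 2 < c k).card ≤ 9 ∧
    ∀ T : Finset (Fin r), T.card ≤ 3 → ∑ k ∈ T, c k ≤ d) ∨
  (Number N0 r ∧ ∃ b, 1 ≤ b ∧ ∀ k, c k = b + 1)

open Pool.Agent.TH641.UM Pool.Agent.TH2.NU in
theorem result :
    ∃ N0 : ℕ, ∀ (n r d : ℕ) (w : Fin n → ℕ) (g : Fin n → Fin r) (c : Fin r → ℕ),
      (∀ k, Glued N0 (∑ p : {p // g p = k}, {w p}) ∨
        ∀ e, (e + 1 = c k ∨ e + 2 = c k) → NonSpecial e (fun p : {p // g p = k} => w p)) →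
      (∀ k, (c k).choose 2 ≤ cond (fun p : {p // g p = k} => w p) ∧
        cond (fun p : {p // g p = k} => w p) ≤ (c k + 1).choose 2) →
      Parents N0 d c → NonSpecial d w := by
  classical
  obtain ⟨N0, hN0⟩ := Pool.Agent.Y939.NC.reg_exp
  refine ⟨N0, fun n r d w g c h1 h2 h => ?_⟩
  have hc : ∀ k, cnd (ms fun p : {p // g p = k} => w p) = cond (fun p : {p // g p = k} => w p) :=
    fun k => (cond_condM _).symm
  have h3 : ∀ k e, (e + 1 = c k ∨ e + 2 = c k) → Sgn (ms fun p : {p // g p = k} => w p) e := by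
    intro k e he
    rcases h1 k with h4 | h4
    · exact h4.rg.sgn hN0 e
    · exact (nonSpecial_iff.1 (h4 e he)).sgn
  rw [nonSpecial_iff]
  refine Sgn.ns ?_
  rw [ms_fib w g]
  rcases h with h | ⟨h9, hT⟩ | ⟨hr, b, hb, hcb⟩
  · refine glue_set _ (fun k => c k - 1) (Finset.univ.filter fun k => 0 < c k) (fun k hk => ?_)
      (fun k hk => ?_) fun u hu hu0 => ?_
    · have h0 := (Finset.mem_filter.1 hk).2
      refine ⟨?_, ?_, fun e he => h3 k e (by omega)⟩
      · rw [show c k - 1 + 1 = c k by omega]
        exact (h2 k).1.trans (le_of_eq (hc k).symm)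
      · rw [show c k - 1 + 2 = c k + 1 by omega]
        exact (le_of_eq (hc k)).trans (h2 k).2
    · have h0 : c k = 0 := by
        by_contra hne
        exact hk (Finset.mem_filter.2 ⟨Finset.mem_univ _, Nat.pos_of_ne_zero hne⟩)
      have h4 := (h2 k).2
      rw [h0] at h4
      exact Nat.le_zero.1 ((le_of_eq (hc k)).trans h4)
    · refine (nonSpecial_iff.1 (h u fun k => ?_)).sgn
      rcases Nat.eq_zero_or_pos (c k) with h0 | h0
      · left
        rw [h0]
        refine hu0 k fun hk => ?_
        have := (Finset.mem_filter.1 hk).2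
        omega
      · rcases hu k (Finset.mem_filter.2 ⟨Finset.mem_univ _, h0⟩) with h4 | h4
        · right
          omega
        · left
          omega
  · exact sgn_groups _ c h3 (fun k => (h2 k).1.trans (le_of_eq (hc k).symm))
      (fun k => (le_of_eq (hc k)).trans (h2 k).2) hT h9
  · refine glue_all _ (fun _ => b) (fun k => ⟨?_, ?_, fun e he => h3 k e (by rw [hcb k]; omega)⟩)
      fun u hu => sgn_num hN0 hr hb u hu d
    · have h4 := (h2 k).1
      rw [hcb k] at h4
      exact h4.trans (le_of_eq (hc k).symm)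
    · have h4 := (h2 k).2
      rw [hcb k] at h4
      exact (le_of_eq (hc k)).trans h4

end Pool.Agent.Results.MP_d3128a_ag.GluingGroups
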