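import Mathlib
import Pool.Agent.J4.H6.NC.Exc

set_option autoImplicit false

/-!
# Nine arbitrary multiplicities: the exceptions are near the anticanonical class

General points of the complex projective plane, multiplicities `w 0 ≥ w 1 ≥ ⋯` and a degree
`d ≥ w 0 + w 1 + w 2`.

Part 1 (nine arbitrary multiplicities). Let `m ≥ 1`, let `t` be the sum of all the multiplicities
`w i > m` with `i ≥ 9`, and `G = 2 m ^ 2 + 3 m + 3 + t`. If `w 2 ≥ 100 G`, and if the anticanonical
degree of the class on the blow-up at the nine points with the largest multiplicities satisfies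
`3 d - (w 0 + ⋯ + w 8) ≥ 180000 G`, or if `d ≥ w 0 + 2 w 5 + 5 G`, then the system is non-special. In
particular (`t = 0`): nine multiplicities are arbitrary, and any number of others are at most `m`.
The anticanonical degree of every class with `d ≥ w 0 + w 1 + w 2` is nonnegative.

Part 2 (eight arbitrary multiplicities). Let `t` be the sum of all the multiplicities `w i > m` with
`i ≥ 8`. If `w 2 ≥ 50 (2 m ^ 2 + 3 m + 3 + t)` then the system is non-special.

Part 3. An exception to Q1 is a special class with `d ≥ w 0 + w 1 + w 2`. Let `μ = max (w 9) 1`, where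
`w 9` is the tenth multiplicity. For every exception `d < 5.4 * 10 ^ 16 * μ ^ 8`, or the nine largest
multiplicities are nearly equal and nearly a third of the degree: `w 0 - w 8 < 1440000 μ ^ 2`,
`0 ≤ d - 3 w 8 < 4320000 μ ^ 2` and `3 d - (w 0 + ⋯ + w 8) < 1440000 μ ^ 2`.

Part 4. For every `μ` the exceptions with `w 9 ≤ μ` have only finitely many shapes
`(d - 3 w 8; w 0 - w 8, …, w 7 - w 8)`: up to multiplicities at most `μ` all exceptions are in finitely
many families `D + k (3; 1, …, 1)`, `k = w 8`.

Part 5. Only finitely many exceptions have `w 8 ≤ μ`, and `d < 3.4 * 10 ^ 15 * (max (w 8) 1) ^ 8`.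

Proof. Let `K` be a canonical divisor of the blow-up at the nine points. If `d ≥ w 0 + 2 w 5 + 5 G`
then the points number `5, 6, 7, 8`, with many of the small points, are replaced by one point
(gluing) after their multiplicities have been increased to the same size, and quadratic
transformations lead to part 1 of `LargeThirdMultiplicity`. Otherwise the class is near the face
of the cone of the standard classes which is spanned by the pencil of lines and by the
anticanonical classes of six, seven, eight and nine points. If it is far from all the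
anticanonical classes then four multiplicities are increased (each point is replaced by a larger
one which contains some of the small points); two quadratic transformations lead to a standard
class which is not near that face any more. If it is near the anticanonical class of `n = 6, 7, 8`
points then one multiplicity is increased and the class is reduced to standard form by the Weyl
group of `E n`; by the index theorem this is possible, and the standard form is farther away from
the anticanonical class of `n` points. This is a descent from `n = 8` to `n = 7`, to `n = 6` and to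
the first two cases, and it consumes a part of the anticanonical degree.
-/

namespace Pool.Agent.Results.MP_d3128a_ag.NineArbitrary

open MvPolynomial

/-- Forms of degree `d` vanishing to order at least `w i` at the points `(P i 0 : P i 1 : 1)`. -/
noncomputable def forms {n : ℕ} (P : Fin n → Fin 2 → ℂ) (d : ℕ) (w : Fin n → ℕ) :
    Submodule ℂ (MvPolynomial (Fin 3) ℂ) :=
  homogeneousSubmodule (Fin 3) ℂ d ⊓
    Submodule.restrictScalars ℂ
      (⨅ i : Fin n, (Ideal.span {X 0 - C (P i 0) * X 2, X 1 - C (P i 1) * X 2} :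
        Ideal (MvPolynomial (Fin 3) ℂ)) ^ (w i))

/-- For general points the system of degree `d` with the multiplicities `w` is non-special: its
projective dimension is the expected one. -/
def NonSpecial {n : ℕ} (d : ℕ) (w : Fin n → ℕ) : Prop :=
  ∃ F : MvPolynomial (Fin n × Fin 2) ℂ, F ≠ 0 ∧ ∀ P : Fin n → Fin 2 → ℂ,
    MvPolynomial.eval (fun ij : Fin n × Fin 2 => P ij.1 ij.2) F ≠ 0 →
      (Module.finrank ℂ ↥(forms P d w) : ℤ) - 1 =
        max (((d + 2).choose 2 : ℤ) - 1 - ∑ i, ((w i + 1).choose 2 : ℤ)) (-1)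

/-- An exception to Q1: the multiplicities `w 0 ≥ w 1 ≥ ⋯` with `w i > 0` exactly for `i < s`, and a
degree `d ≥ w 0 + w 1 + w 2` in which the class is special. -/
def Exception (s d : ℕ) (w : ℕ → ℕ) : Prop :=
  Antitone w ∧ (∀ i, i < s → 0 < w i) ∧ (∀ i, s ≤ i → w i = 0) ∧ w 0 + w 1 + w 2 ≤ d ∧
    ¬ NonSpecial d (fun i : Fin s => w i)

/-- `2 m ^ 2 + 3 m + 3` plus the sum of the multiplicities larger than `m` from number `k` on. -/
def G (k m s : ℕ) (w : ℕ → ℕ) : ℕ :=
  2 * m ^ 2 + 3 * m + 3 + ∑ i ∈ Finset.Ico k s, (if m < w i then w i else 0)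

/-- The degree and the nine largest multiplicities, up to multiples of `(3; 1, …, 1)`. -/
def shape (d : ℕ) (w : ℕ → ℕ) : ℕ × (Fin 8 → ℕ) := (d - 3 * w 8, fun i => w i - w 8)

theorem nonSpecial_iff {n d : ℕ} {w : Fin n → ℕ} :
    NonSpecial d w ↔ Pool.Agent.R735.SX.NonSpecial d w := by
  have h : ∀ k : ℕ, ((k : ℤ) - 1 =
      max (((d + 2).choose 2 : ℤ) - 1 - ∑ i, ((w i + 1).choose 2 : ℤ)) (-1) ↔
      k = (d + 2).choose 2 - ∑ i, (w i + 1).choose 2) := by
    intro k
    have e : ∑ i, ((w i + 1).choose 2 : ℤ) = ((∑ i, (w i + 1).choose 2 : ℕ) : ℤ) := by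
      push_cast
      rfl
    rw [e]
    omega
  unfold NonSpecial Pool.Agent.R735.SX.NonSpecial
  simp only [h]
  rfl

theorem exception {s d : ℕ} {w : ℕ → ℕ} (h : Exception s d w) :
    Pool.Agent.R735.SX.Exception s d w := by
  obtain ⟨h1, h2, h3, h4, h5⟩ := h
  rw [nonSpecial_iff] at h5
  refine ⟨?_, h1, h2, h3, h4, h5⟩
  by_contra hs
  exact h5 (Pool.Agent.J4.H6.NM.ns_few (by omega) h1 h3 h4)

theorem result :
    -- (1) nine arbitrary multiplicities
    (∀ (m s d : ℕ) (w : ℕ → ℕ), 1 ≤ m → Antitone w → (∀ i, s ≤ i → w i = 0) →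
      w 0 + w 1 + w 2 ≤ d → 100 * G 9 m s w ≤ w 2 →
      (∑ i ∈ Finset.range 9, w i + 180000 * G 9 m s w ≤ 3 * d ∨
        w 0 + 2 * w 5 + 5 * G 9 m s w ≤ d) →
      NonSpecial d (fun i : Fin s => w i)) ∧
    -- (2) eight arbitrary multiplicities
    (∀ (m s d : ℕ) (w : ℕ → ℕ), 1 ≤ m → Antitone w → (∀ i, s ≤ i → w i = 0) →
      w 0 + w 1 + w 2 ≤ d → 50 * G 8 m s w ≤ w 2 → NonSpecial d (fun i : Fin s => w i)) ∧
    -- (3) the exceptions
    (∀ (s d : ℕ) (w : ℕ → ℕ), Exception s d w →
      d < 54 * 10 ^ 15 * (max (w 9) 1) ^ 8 ∨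
      (3 * d < ∑ i ∈ Finset.range 9, w i + 1440000 * (max (w 9) 1) ^ 2 ∧
        w 0 < w 8 + 1440000 * (max (w 9) 1) ^ 2 ∧
        3 * w 8 ≤ d ∧ d < 3 * w 8 + 4320000 * (max (w 9) 1) ^ 2)) ∧
    -- (4) finitely many shapes for a bounded tenth multiplicity
    (∀ μ : ℕ, {x : ℕ × (Fin 8 → ℕ) | ∃ (s d : ℕ) (w : ℕ → ℕ), Exception s d w ∧ w 9 ≤ μ ∧
      x = shape d w}.Finite) ∧
    -- (5) finitely many exceptions for a bounded ninth multiplicity
    (∀ (s d : ℕ) (w : ℕ → ℕ), Exception s d w → d < 34 * 10 ^ 14 * (max (w 8) 1) ^ 8) ∧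
    (∀ μ : ℕ, {x : ℕ × ℕ × (ℕ → ℕ) | x.2.2 8 ≤ μ ∧ Exception x.1 x.2.1 x.2.2}.Finite) := by
  refine ⟨fun m s d w hm hw hs hd h h' => ?_, fun m s d w hm hw hs hd h => ?_,
    fun s d w h => ?_, fun μ => ?_, fun s d w h => ?_, fun μ => ?_⟩
  · rw [nonSpecial_iff]
    exact Pool.Agent.J4.H6.NC.ns_nine hm hw hs hd h h'.symm
  · rw [nonSpecial_iff]
    exact Pool.Agent.J4.H6.NM.ns_main hm hw hs hd h
  · rcases Pool.Agent.J4.H6.NC.exc_tenth' (exception h) with h1 | ⟨h1, h2, h3, h4, -⟩
    · exact Or.inl h1
    · exact Or.inr ⟨h1, h2, h3, h4⟩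
  · refine (Pool.Agent.J4.H6.NC.exc_shapes μ).subset ?_
    rintro x ⟨s, d, w, h1, h2, h3⟩
    exact ⟨s, d, w, exception h1, h2, h3⟩
  · exact Pool.Agent.J4.H6.NM.exc_deg (exception h)
  · exact (Pool.Agent.J4.H6.NM.exc_finite μ).subset fun x hx => ⟨hx.1, exception hx.2⟩

end Pool.Agent.Results.MP_d3128a_ag.NineArbitrary
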